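import Pool.Agent.LPK.Stmts

/-!
# Row PAI of squad LPK (MP_37fa12_co): the conditions for pairs
-/

set_option autoImplicit false

noncomputable section

open MeasureTheory Filter Topology
open scoped RealInnerProductSpace

namespace Pool.Agent.LPK.H15

open Pool.Agent.LPK

theorem G_pos {n : ℕ} (x : V n) : 0 < G x := Real.exp_pos _

theorem ind_t {p : Prop} (h : p) : ind p = 1 := by
  unfold ind
  exact if_pos h

theorem ind_f {p : Prop} (h : ¬ p) : ind p = 0 := by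
  unfold ind
  exact if_neg h

theorem Cg_symm {n : ℕ} {a c : Fin n → ℤ} (h : Cg a c) : Cg c a := by
  intro i
  have h1 := h i
  omega

theorem K2_symm (L : List (ℕ × List ℤ)) (A B : ℝ) : K2 L A B = K2 L B A := by
  unfold K2
  congr 1
  refine List.map_congr_left (fun d _ => ?_)
  rw [mul_comm (e1 d.2 A) (e1 d.2 B)]

/-- an even function at `h` and at `|h|` -/
theorem even_abs {f : ℝ → ℝ} (hf : ∀ H, f (-H) = f H) (h : ℝ) : f h = f |h| := by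
  rcases abs_cases h with ⟨e, _⟩ | ⟨e, _⟩
  · rw [e]
  · rw [e, hf]

theorem inner_sq_le {n : ℕ} (x y : V n) : |⟪x, y⟫| ^ 2 ≤ ‖x‖ ^ 2 * ‖y‖ ^ 2 := by
  have h := abs_real_inner_le_norm x y
  calc |⟪x, y⟫| ^ 2 ≤ (‖x‖ * ‖y‖) ^ 2 := by
        exact pow_le_pow_left₀ (abs_nonneg _) h 2
    _ = ‖x‖ ^ 2 * ‖y‖ ^ 2 := by ring

/-- the smaller one of the norms of `x - y`, `x + y` -/
theorem norm_abs {n : ℕ} (x y : V n) : ‖x‖ ^ 2 + ‖y‖ ^ 2 - 2 * |⟪x, y⟫| = ‖x - y‖ ^ 2 ∨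
    ‖x‖ ^ 2 + ‖y‖ ^ 2 - 2 * |⟪x, y⟫| = ‖x + y‖ ^ 2 := by
  have h1 := norm_sub_sq_real x y
  have h2 := norm_add_sq_real x y
  rcases abs_cases (⟪x, y⟫ : ℝ) with ⟨e, _⟩ | ⟨e, _⟩
  · left
    rw [e, h1]
    ring
  · right
    rw [e, h2]
    ring

/-- one of the two lattices -/
theorem gen {n : ℕ} {b : Fin n → V n} {μ : ℝ}
    (hadd : ∀ a c : Fin n → ℤ, pt b (a + c) = pt b a + pt b c ∧ pt b (a - c) = pt b a - pt b c)
    (hdbl : ∀ a : Fin n → ℤ, pt b (2 • a) = (2 : ℝ) • pt b a) (hM : Mu μ b)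
    {L : ℝ → ℝ → ℝ → ℝ} {C : ℝ → ℝ → ℝ} (hL : ∀ A B H, L A B (-H) = L A B H)
    (hC : ∀ A B, C A B = C B A)
    (h1 : ∀ A B H : ℝ, μ ≤ A → μ ≤ B → 0 ≤ H → μ ≤ A + B - 2 * H → H ^ 2 ≤ A * B →
      L A B H + L B A H ≤ 0)
    (h2 : ∀ A B H : ℝ, μ ≤ A → μ ≤ B → 0 ≤ H → 4 * μ ≤ A + B - 2 * H → H ^ 2 ≤ A * B →
      L A B H + L B A H + 2 * C A B ≤ 0)
    (a a' : Fin n → ℤ) (ha : a ≠ 0) (ha' : a' ≠ 0) (hne : a ≠ a') (hne' : a ≠ -a') :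
    (L (‖pt b a‖ ^ 2) (‖pt b a'‖ ^ 2) ⟪pt b a, pt b a'⟫ +
      ind (Cg a a') * C (‖pt b a‖ ^ 2) (‖pt b a'‖ ^ 2)) * (G (pt b a) * G (pt b a')) +
    (L (‖pt b a'‖ ^ 2) (‖pt b a‖ ^ 2) ⟪pt b a', pt b a⟫ +
      ind (Cg a' a) * C (‖pt b a'‖ ^ 2) (‖pt b a‖ ^ 2)) * (G (pt b a') * G (pt b a)) ≤ 0 := by
  have hA := hM a ha
  have hB := hM a' ha'
  have hs : a - a' ≠ 0 := sub_ne_zero.2 hne
  have hs' : a + a' ≠ 0 := by
    intro h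
    exact hne' (eq_neg_of_add_eq_zero_left h)
  obtain ⟨x, hx⟩ : ∃ x, x = pt b a := ⟨_, rfl⟩
  obtain ⟨y, hy⟩ : ∃ y, y = pt b a' := ⟨_, rfl⟩
  have hG : 0 < G x * G y := mul_pos (G_pos x) (G_pos y)
  have e1 : L (‖x‖ ^ 2) (‖y‖ ^ 2) ⟪x, y⟫ = L (‖x‖ ^ 2) (‖y‖ ^ 2) |⟪x, y⟫| :=
    even_abs (hL _ _) _
  have e2 : L (‖y‖ ^ 2) (‖x‖ ^ 2) ⟪y, x⟫ = L (‖y‖ ^ 2) (‖x‖ ^ 2) |⟪x, y⟫| := by
    rw [real_inner_comm]
    exact even_abs (hL _ _) _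
  have hcs := inner_sq_le x y
  rw [← hx, ← hy]
  rw [← hx] at hA
  rw [← hy] at hB
  rw [e1, e2, hC (‖y‖ ^ 2) (‖x‖ ^ 2), mul_comm (G y) (G x)]
  by_cases hc : Cg a a'
  · rw [ind_t hc, ind_t (Cg_symm hc)]
    -- the norms of the sum and of the difference
    have h4 : 4 * μ ≤ ‖x‖ ^ 2 + ‖y‖ ^ 2 - 2 * |⟪x, y⟫| := by
      have hd : ∀ d : Fin n → ℤ, d ≠ 0 → (∀ i, 2 ∣ d i) → 4 * μ ≤ ‖pt b d‖ ^ 2 := by
        intro d hd0 hd2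
        choose c hcd using hd2
        have hdc : d = 2 • c := by
          funext i
          rw [hcd i]
          simp
        have hc0 : c ≠ 0 := by
          intro h
          apply hd0
          rw [hdc, h, smul_zero]
        have h5 := hM c hc0
        rw [hdc, hdbl, norm_smul, mul_pow, Real.norm_eq_abs, abs_of_pos (by norm_num : (0:ℝ) < 2)]
        linarith
      rcases norm_abs x y with h | h
      · rw [h, hx, hy, ← (hadd a a').2]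
        exact hd _ hs (fun i => hc i)
      · rw [h, hx, hy, ← (hadd a a').1]
        refine hd _ hs' (fun i => ?_)
        have h6 := hc i
        show 2 ∣ a i + a' i
        omega
    have h5 := h2 _ _ _ hA hB (abs_nonneg _) h4 hcs
    have h6 : (L (‖x‖ ^ 2) (‖y‖ ^ 2) |⟪x, y⟫| + 1 * C (‖x‖ ^ 2) (‖y‖ ^ 2)) * (G x * G y) +
        (L (‖y‖ ^ 2) (‖x‖ ^ 2) |⟪x, y⟫| + 1 * C (‖x‖ ^ 2) (‖y‖ ^ 2)) * (G x * G y) =
        (L (‖x‖ ^ 2) (‖y‖ ^ 2) |⟪x, y⟫| + L (‖y‖ ^ 2) (‖x‖ ^ 2) |⟪x, y⟫| +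
          2 * C (‖x‖ ^ 2) (‖y‖ ^ 2)) * (G x * G y) := by ring
    rw [h6]
    exact mul_nonpos_of_nonpos_of_nonneg h5 hG.le
  · have hc' : ¬ Cg a' a := fun h => hc (Cg_symm h)
    rw [ind_f hc, ind_f hc']
    have h4 : μ ≤ ‖x‖ ^ 2 + ‖y‖ ^ 2 - 2 * |⟪x, y⟫| := by
      rcases norm_abs x y with h | h
      · rw [h, hx, hy, ← (hadd a a').2]
        exact hM _ hs
      · rw [h, hx, hy, ← (hadd a a').1]
        exact hM _ hs'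
    have h5 := h1 _ _ _ hA hB (abs_nonneg _) h4 hcs
    have h6 : (L (‖x‖ ^ 2) (‖y‖ ^ 2) |⟪x, y⟫| + 0 * C (‖x‖ ^ 2) (‖y‖ ^ 2)) * (G x * G y) +
        (L (‖y‖ ^ 2) (‖x‖ ^ 2) |⟪x, y⟫| + 0 * C (‖x‖ ^ 2) (‖y‖ ^ 2)) * (G x * G y) =
        (L (‖x‖ ^ 2) (‖y‖ ^ 2) |⟪x, y⟫| + L (‖y‖ ^ 2) (‖x‖ ^ 2) |⟪x, y⟫|) * (G x * G y) := by ring
    rw [h6]
    exact mul_nonpos_of_nonpos_of_nonneg h5 hG.le

/-- row PAI -/
theorem pai (hE : EvaStmt) (hD : DuaStmt) : PaiStmt := by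
  intro n κ D μ ν hc b b' hdu hM hN
  obtain ⟨hdu', hin, _, hadd, hdbl⟩ := hD n κ b b' hdu
  obtain ⟨_, _, _, hadd', hdbl'⟩ := hD n κ⁻¹ b' b hdu'
  obtain ⟨_, _, _, _, hT, hev⟩ := hE
  refine ⟨?_, ?_, ?_⟩
  · intro a a' ha ha' hne hne'
    refine gen (L := D.LL n) (C := D.C) (fun a c => ⟨(hadd a c).1, (hadd a c).2.1⟩) hdbl hM ?_ ?_
      hc.ll hc.le a a' ha ha' hne hne'
    · intro A B H
      unfold CD.LL CD.K
      rw [hev D.P A B H hc.evP, neg_sq]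
    · intro A B
      exact K2_symm _ _ _
  · intro a a' ha ha' hne hne'
    refine gen (L := D.SS n) (C := D.C') (fun a c => ⟨(hadd' a c).1, (hadd' a c).2.1⟩) hdbl' hN
      ?_ ?_ hc.ss hc.se a a' ha ha' hne hne'
    · intro A B H
      unfold CD.SS CD.K'
      rw [hev D.Q A B H hc.evQ, neg_sq]
    · intro A B
      exact K2_symm _ _ _
  · intro a c ha hcc
    have hA := hM a ha
    have hB := hN c hcc
    obtain ⟨k, hk⟩ : ∃ k : ℤ, k = ∑ i, a i * c i := ⟨_, rfl⟩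
    have hx : (⟪pt b a, pt b' c⟫ : ℝ) = 2 * Real.pi * (k : ℝ) := by
      rw [hin a c, hk]
    have hab : |(⟪pt b a, pt b' c⟫ : ℝ)| = 2 * Real.pi * (k.natAbs : ℝ) := by
      rw [hx, abs_mul, abs_of_pos (by positivity : (0:ℝ) < 2 * Real.pi), Nat.cast_natAbs,
        Int.cast_abs]
    have hLS : D.LS n κ (‖pt b a‖ ^ 2) (‖pt b' c‖ ^ 2) ⟪pt b a, pt b' c⟫ =
        D.LS n κ (‖pt b a‖ ^ 2) (‖pt b' c‖ ^ 2) (2 * Real.pi * (k.natAbs : ℝ)) := by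
      rw [← hab]
      refine even_abs (f := D.LS n κ (‖pt b a‖ ^ 2) (‖pt b' c‖ ^ 2)) (fun H => ?_) _
      unfold CD.LS
      rw [hev _ _ _ _ (hT n D.P hc.evP), hev _ _ _ _ (hT n D.Q hc.evQ)]
    have hsq : (2 * Real.pi * (k.natAbs : ℝ)) ^ 2 ≤ ‖pt b a‖ ^ 2 * ‖pt b' c‖ ^ 2 := by
      rw [← hab]
      exact inner_sq_le _ _
    have h := hc.mx _ _ k.natAbs hA hB hsq
    unfold fLS
    show (D.LS n κ (‖pt b a‖ ^ 2) (‖pt b' c‖ ^ 2) ⟪pt b a, pt b' c⟫ +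
      2 * rr n * sg a c * D.X (‖pt b a‖ ^ 2) (‖pt b' c‖ ^ 2)) * (G (pt b a) * G (pt b' c)) ≤ 0
    rw [hLS]
    have hs : sg a c = (-1) ^ k.natAbs := by
      unfold sg
      rw [hk]
    rw [hs]
    exact mul_nonpos_of_nonpos_of_nonneg h (mul_pos (G_pos _) (G_pos _)).le

end Pool.Agent.LPK.H15
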